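import Pool.Agent.W42.RG.Defs2
import Pool.Agent.W356.LX.POLY

/-! Project LY (helper42), RPOLY: the powers of `A` on a generalised eigenvector. -/

set_option autoImplicit false
set_option linter.all false

namespace Pool.Agent.W591.LY

open Finset Pool.Agent.W42.RG Pool.Agent.W356.LX

section

variable {V : Type} [AddCommGroup V] [Module ℝ V] (A : V ≃ₗ[ℝ] V) (ω : ℂ)

/-- the partial sums -/
noncomputable def RS (φ : ℂ →ₗ[ℝ] V) (d : ℕ) (n : ℤ) (ζ : ℂ) : V :=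
  ∑ l ∈ range (d + 1), bp l (n : ℝ) • ((nw A ω)^[l] φ (ω ^ (n - l) * ζ))

theorem nw_apply (φ : ℂ →ₗ[ℝ] V) (ζ : ℂ) : nw A ω φ ζ = A (φ ζ) - φ (ω * ζ) := rfl

theorem A_iter (φ : ℂ →ₗ[ℝ] V) (l : ℕ) (ζ : ℂ) :
    A ((nw A ω)^[l] φ ζ) = (nw A ω)^[l + 1] φ ζ + (nw A ω)^[l] φ (ω * ζ) := by
  rw [Function.iterate_succ_apply', nw_apply]
  abel

theorem RS_zero (φ : ℂ →ₗ[ℝ] V) (d : ℕ) (ζ : ℂ) : RS A ω φ d 0 ζ = φ ζ := by
  unfold RS
  rw [sum_range_succ']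
  have : ∑ l ∈ range d, bp (l + 1) ((0 : ℤ) : ℝ) •
      ((nw A ω)^[l + 1] φ (ω ^ ((0 : ℤ) - ((l + 1 : ℕ) : ℤ)) * ζ)) = 0 :=
    sum_eq_zero (fun l _ => by rw [Int.cast_zero, bp_at_zero, zero_smul])
  rw [this, zero_add, bp_zero]
  simp

theorem RS_step (hω : ω ≠ 0) (φ : ℂ →ₗ[ℝ] V) (d : ℕ) (n : ℤ) (ζ : ℂ) :
    A (RS A ω φ d n ζ) - RS A ω φ d (n + 1) ζ =
      bp d (n : ℝ) • ((nw A ω)^[d + 1] φ (ω ^ (n - d) * ζ)) := by
  have h1 : A (RS A ω φ d n ζ) =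
      ∑ l ∈ range (d + 1), bp l (n : ℝ) • ((nw A ω)^[l] φ (ω ^ (n + 1 - l) * ζ)) +
        ∑ l ∈ range (d + 1), bp l (n : ℝ) • ((nw A ω)^[l + 1] φ (ω ^ (n - l) * ζ)) := by
    unfold RS
    rw [map_sum, ← sum_add_distrib]
    refine sum_congr rfl (fun l _ => ?_)
    rw [map_smul, ← smul_add, A_iter]
    congr 1
    have e : ω * (ω ^ (n - l) * ζ) = ω ^ (n + 1 - l) * ζ := by
      rw [← mul_assoc, ← zpow_one_add₀ hω]
      congr 2
      ring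
    rw [e]
    abel
  have h2 : RS A ω φ d (n + 1) ζ =
      ∑ l ∈ range (d + 1), bp l (n : ℝ) • ((nw A ω)^[l] φ (ω ^ (n + 1 - l) * ζ)) +
        ∑ l ∈ range d, bp l (n : ℝ) • ((nw A ω)^[l + 1] φ (ω ^ (n - l) * ζ)) := by
    unfold RS
    rw [sum_range_succ', sum_range_succ' (fun l : ℕ =>
      bp l (n : ℝ) • ((nw A ω)^[l] φ (ω ^ (n + 1 - l) * ζ)))]
    have e1 : ∀ l : ℕ, bp (l + 1) ((n + 1 : ℤ) : ℝ) •
        ((nw A ω)^[l + 1] φ (ω ^ (n + 1 - ((l + 1 : ℕ) : ℤ)) * ζ)) =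
        bp (l + 1) (n : ℝ) • ((nw A ω)^[l + 1] φ (ω ^ (n + 1 - ((l + 1 : ℕ) : ℤ)) * ζ)) +
          bp l (n : ℝ) • ((nw A ω)^[l + 1] φ (ω ^ (n - l) * ζ)) := by
      intro l
      have e2 : n + 1 - ((l + 1 : ℕ) : ℤ) = n - l := by
        push_cast
        ring
      rw [e2, Int.cast_add, Int.cast_one, bp_pascal, add_smul]
    rw [sum_congr rfl fun l _ => e1 l, sum_add_distrib]
    simp only [bp_zero]
    abel
  rw [h1, h2, sum_range_succ (fun l : ℕ =>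
    bp l (n : ℝ) • ((nw A ω)^[l + 1] φ (ω ^ (n - l) * ζ)))]
  abel

end

theorem t_RPOLY : S_RPOLY := by
  intro V _ _ A K hK ω hω φ d hd hY
  obtain ⟨e, rfl⟩ : ∃ e, d = e + 1 := ⟨d - 1, by omega⟩
  obtain ⟨C, hC, hmain⟩ := bp_main e
  refine ⟨fun l n => bp l (n : ℝ), C + 1, ?_, ?_, ?_⟩
  · intro l hl n
    have h0 : (1 : ℝ) ≤ 1 + |(n : ℝ)| := by
      have := abs_nonneg (n : ℝ)
      linarith
    rw [Nat.add_sub_cancel]
    calc |bp l (n : ℝ)| ≤ (1 + |(n : ℝ)|) ^ l := bp_bound l _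
      _ ≤ (1 + |(n : ℝ)|) ^ e := pow_le_pow_right₀ h0 (by omega)
      _ ≤ (C + 1) * (1 + |(n : ℝ)|) ^ e := le_mul_of_one_le_left (by positivity) (by linarith)
  · intro n
    rw [Nat.add_sub_cancel]
    refine (hmain n).trans ?_
    exact mul_le_mul_of_nonneg_right (by linarith) (by positivity)
  · intro n ζ
    show (A ^ n) (φ ζ) - RS A ω φ (e + 1) n ζ ∈ K
    have hstep : ∀ m : ℤ, A ((A ^ m) (φ ζ) - RS A ω φ (e + 1) m ζ) -
        ((A ^ (m + 1)) (φ ζ) - RS A ω φ (e + 1) (m + 1) ζ) ∈ K := by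
      intro m
      have h1 : (A ^ (m + 1)) (φ ζ) = A ((A ^ m) (φ ζ)) := by
        rw [add_comm, zpow_add, zpow_one]
        rfl
      have h2 := RS_step A ω hω φ (e + 1) m ζ
      have h3 : A ((A ^ m) (φ ζ) - RS A ω φ (e + 1) m ζ) -
          ((A ^ (m + 1)) (φ ζ) - RS A ω φ (e + 1) (m + 1) ζ) =
          -(bp (e + 1) (m : ℝ) • ((nw A ω)^[e + 1 + 1] φ (ω ^ (m - ((e + 1 : ℕ) : ℤ)) * ζ))) := by
        rw [← h2, map_sub, h1]
        abel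
      rw [h3]
      exact K.neg_mem (K.smul_mem _ (hY _))
    induction n using Int.induction_on with
    | zero =>
      rw [RS_zero]
      simp
    | succ i ih =>
      have h := hstep (i : ℤ)
      have h2 := (hK _).mpr ih
      have h3 := K.sub_mem h2 h
      rw [sub_sub_cancel] at h3
      exact h3
    | pred i ih =>
      have h := hstep (-(i : ℤ) - 1)
      rw [sub_add_cancel] at h
      have h3 := K.add_mem h ih
      rw [sub_add_cancel] at h3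
      exact (hK _).mp h3

end Pool.Agent.W591.LY
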